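import Mathlib

namespace Pool.Agent.Results.MP_cc10d1_gt.LogColoringCount

open Function Finset
open scoped Classical

/-!
Knots are given by their diagrams on the oriented sphere.

Let `C` be the set of crossings of an oriented knot diagram. At every crossing exactly one of the
two strands is crossed by the other one from its right side to its left side. Turn the crossing
`c` so that this strand runs from west to east; the other one then runs from south to north.
The pair `(c, true)` is the passage of the knot through `c` along the west-east strand and
`(c, false)` is the passage through `c` along the south-north strand. The map `next` sends a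
passage to the passage that follows it along the oriented knot. Every edge of the diagram is named
by the passage at which it arrives, so the edge that leaves the passage `x` is `next x`.
-/

/-- A quandle: `op x y` is the product written `x * y` in the problem. -/
structure IsQuandle {X : Type} (op : X → X → X) : Prop where
  idem : ∀ x, op x x = x
  bij : ∀ y, Function.Bijective (fun x => op x y)
  distrib : ∀ x y z, op (op x y) z = op (op x z) (op y z)

/-- A side is an edge together with `true` for its left side or `false` for its right side.
`Corner next x y` says that the sides `x` and `y` bound a common quadrant (north-east,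
north-west, south-west or south-east) of some crossing. -/
inductive Corner {C : Type} (next : C × Bool → C × Bool) :
    (C × Bool) × Bool → (C × Bool) × Bool → Prop
  | ne (c : C) : Corner next (next (c, true), true) (next (c, false), false)
  | nw (c : C) : Corner next (next (c, false), true) ((c, true), true)
  | sw (c : C) : Corner next ((c, true), false) ((c, false), true)
  | se (c : C) : Corner next ((c, false), false) (next (c, true), false)

/-- The regions of the diagram: the classes of the equivalence relation on the sides that is
generated by the four quadrants of all crossings. -/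
def Region {C : Type} (next : C × Bool → C × Bool) : Type := Quot (Corner next)

/-- An oriented knot diagram on the sphere with at least one crossing. `one_component`: a single
closed curve runs through all passages. `planar`: the diagram has `V = card C` vertices and `2 V`
edges, so Euler's formula `V - 2 V + F = 2` (genus zero) says `F = V + 2`.
`sign c` is the sign of the crossing (`true` for a positive crossing). At a positive crossing the
strand over is the one from west to east, at a negative crossing it is the one from south to
north. -/
structure KnotDiagram where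
  C : Type
  finC : Finite C
  nonempty : Nonempty C
  next : C × Bool → C × Bool
  one_component : ∀ x y : C × Bool, ∃ k : ℕ, next^[k] x = y
  planar : Nat.card (Region next) = Nat.card C + 2
  sign : C → Bool

/-- `f` (a colour for every edge) is a colouring of the diagram `D`: at every crossing the colour
`y` of the over-strand does not change, and the two under-edges have the colours `x` and
`op x y`, where `x` is the colour of the under-edge on the right of the over-strand. -/
def IsColoring {X : Type} (op : X → X → X) (D : KnotDiagram) (f : D.C × Bool → X) : Prop :=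
  ∀ c : D.C,
    (D.sign c = true → f (D.next (c, true)) = f (c, true) ∧
      f (D.next (c, false)) = op (f (c, false)) (f (c, true))) ∧
    (D.sign c = false → f (D.next (c, false)) = f (c, false) ∧
      f (c, true) = op (f (D.next (c, true))) (f (c, false)))

/-- The number `h_X(D)` of the colourings of `D` by the quandle `(X, op)`. -/
noncomputable def coloringCount {X : Type} (op : X → X → X) (D : KnotDiagram) : ℕ :=
  Nat.card {f : D.C × Bool → X // IsColoring op D f}

/-- The diagram obtained from the singular diagram `(D, A)` (the crossings in `A` are made double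
points) by resolving the double points in `T` negatively and the other ones positively. -/
noncomputable def KnotDiagram.resolve (D : KnotDiagram) (A T : Finset D.C) : KnotDiagram :=
  { D with sign := fun c => if c ∈ A then decide (c ∉ T) else D.sign c }

/-- The value on the singular diagram `(D, A)` of the extension of `v` by the rule
`v(K_x) = v(K_+) - v(K_-)`. -/
noncomputable def singularValue (v : KnotDiagram → ℝ) (D : KnotDiagram) (A : Finset D.C) : ℝ :=
  ∑ T ∈ A.powerset, (-1 : ℝ) ^ T.card * v (D.resolve A T)

/-- For some `n` the extension of `v` vanishes on every singular diagram with `n + 1` double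
points. -/
def IsVassiliev (v : KnotDiagram → ℝ) : Prop :=
  ∃ n : ℕ, ∀ (D : KnotDiagram) (A : Finset D.C), A.card = n + 1 → singularValue v D A = 0

/-! ### Unbundled shadows -/

structure Valid {C : Type} (next : C × Bool → C × Bool) : Prop where
  finC : Finite C
  nonempty : Nonempty C
  one_component : ∀ x y : C × Bool, ∃ k : ℕ, next^[k] x = y
  planar : Nat.card (Region next) = Nat.card C + 2

/-- diagram from a shadow and signs -/
def mkD {C : Type} (next : C × Bool → C × Bool) (h : Valid next) (s : C → Bool) : KnotDiagram :=
  { C := C, finC := h.finC, nonempty := h.nonempty, next := next,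
    one_component := h.one_component, planar := h.planar, sign := s }

/-- the next function of the twisted shadow; new crossings `inr false`, `inr true`. -/
noncomputable def twNext {C : Type} (next : C × Bool → C × Bool) (c : C) :
    (C ⊕ Bool) × Bool → (C ⊕ Bool) × Bool
  | (Sum.inl d, b) => if d = c then (Sum.inr false, !b) else
      (Sum.inl (next (d, b)).1, (next (d, b)).2)
  | (Sum.inr false, b) => (Sum.inr true, !b)
  | (Sum.inr true, b) => (Sum.inl (next (c, b)).1, (next (c, b)).2)

/-- inclusion of old passages -/
def inc {C : Type} (x : C × Bool) : (C ⊕ Bool) × Bool := (Sum.inl x.1, x.2)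

theorem tw_old {C : Type} (next : C × Bool → C × Bool) (c d : C) (b : Bool) (h : d ≠ c) :
    twNext next c (Sum.inl d, b) = inc (next (d, b)) := by
  simp [twNext, h, inc]

theorem tw_c {C : Type} (next : C × Bool → C × Bool) (c : C) (b : Bool) :
    twNext next c (Sum.inl c, b) = (Sum.inr false, !b) := by
  simp [twNext]

theorem tw_c1 {C : Type} (next : C × Bool → C × Bool) (c : C) (b : Bool) :
    twNext next c (Sum.inr false, b) = (Sum.inr true, !b) := rfl

theorem tw_c2 {C : Type} (next : C × Bool → C × Bool) (c : C) (b : Bool) :
    twNext next c (Sum.inr true, b) = inc (next (c, b)) := rfl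

theorem reach_trans {α : Type} (f : α → α) {x y z : α} (h1 : ∃ k, f^[k] x = y)
    (h2 : ∃ k, f^[k] y = z) : ∃ k, f^[k] x = z := by
  obtain ⟨a, rfl⟩ := h1
  obtain ⟨b, rfl⟩ := h2
  exact ⟨b + a, by rw [Function.iterate_add_apply]⟩

theorem reach_one {α : Type} (f : α → α) {x y : α} (h1 : f x = y) : ∃ k, f^[k] x = y :=
  ⟨1, by simpa using h1⟩

theorem tw_step {C : Type} (next : C × Bool → C × Bool) (c : C) (x : C × Bool) :
    ∃ k, (twNext next c)^[k] (inc x) = inc (next x) := by
  obtain ⟨d, b⟩ := x
  by_cases h : d = c
  · subst h
    refine reach_trans _ (reach_one _ (tw_c next d b)) ?_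
    refine reach_trans _ (reach_one _ (tw_c1 next d _)) ?_
    refine reach_one _ ?_
    rw [tw_c2]; simp
  · exact reach_one _ (tw_old next c d b h)

theorem tw_steps {C : Type} (next : C × Bool → C × Bool) (c : C) (x : C × Bool) (m : ℕ) :
    ∃ k, (twNext next c)^[k] (inc x) = inc (next^[m] x) := by
  induction m with
  | zero => exact ⟨0, rfl⟩
  | succ m ih =>
    refine reach_trans _ ih ?_
    rw [Function.iterate_succ_apply']
    exact tw_step next c _

theorem tw_one {C : Type} (next : C × Bool → C × Bool) (c : C)
    (h : ∀ x y : C × Bool, ∃ k : ℕ, next^[k] x = y) :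
    ∀ x y : (C ⊕ Bool) × Bool, ∃ k : ℕ, (twNext next c)^[k] x = y := by
  have out : ∀ x : (C ⊕ Bool) × Bool, ∃ x' : C × Bool, ∃ k, (twNext next c)^[k] x = inc x' := by
    rintro ⟨d | i, b⟩
    · exact ⟨(d, b), 0, rfl⟩
    · cases i with
      | false =>
        refine ⟨next (c, !b), reach_trans _ (reach_one _ (tw_c1 next c b)) (reach_one _ (tw_c2 next c _))⟩
      | true => exact ⟨next (c, b), reach_one _ (tw_c2 next c _)⟩
  have inn : ∀ y : (C ⊕ Bool) × Bool, ∃ y' : C × Bool, ∃ k, (twNext next c)^[k] (inc y') = y := by
    rintro ⟨d | i, b⟩
    · exact ⟨(d, b), 0, rfl⟩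
    · cases i with
      | false =>
        refine ⟨(c, !b), reach_one _ ?_⟩
        have := tw_c next c (!b)
        simpa [inc] using this
      | true =>
        refine ⟨(c, b), reach_trans _ (reach_one _ (tw_c next c b)) (reach_one _ ?_)⟩
        rw [tw_c1]; simp
  intro x y
  obtain ⟨x', hx⟩ := out x
  obtain ⟨y', hy⟩ := inn y
  obtain ⟨m, hm⟩ := h x' y'
  refine reach_trans _ hx (reach_trans _ ?_ hy)
  rw [← hm]
  exact tw_steps next c x' m

/-- map from the sides of the twisted diagram to regions of the old one and the two bigons. -/
def fwd {C : Type} (next : C × Bool → C × Bool) (c : C) :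
    ((C ⊕ Bool) × Bool) × Bool → Region next ⊕ Bool
  | ((Sum.inl d, b), s) => Sum.inl (Quot.mk _ ((d, b), s))
  | ((Sum.inr _, true), true) => Sum.inl (Quot.mk _ ((c, true), true))
  | ((Sum.inr i, true), false) => Sum.inr i
  | ((Sum.inr i, false), true) => Sum.inr i
  | ((Sum.inr _, false), false) => Sum.inl (Quot.mk _ ((c, false), false))

theorem fwd_inc {C : Type} (next : C × Bool → C × Bool) (c : C) (x : C × Bool) (s : Bool) :
    fwd next c (inc x, s) = Sum.inl (Quot.mk _ (x, s)) := rfl

theorem fwd_sound {C : Type} (next : C × Bool → C × Bool) (c : C)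
    (x y : ((C ⊕ Bool) × Bool) × Bool) (h : Corner (twNext next c) x y) :
    fwd next c x = fwd next c y := by
  cases h with
  | ne d =>
    rcases d with d | i
    · by_cases hd : d = c
      · subst hd; rw [tw_c, tw_c]; rfl
      · rw [tw_old _ _ _ _ hd, tw_old _ _ _ _ hd, fwd_inc, fwd_inc]
        exact congrArg Sum.inl (Quot.sound (Corner.ne d))
    · cases i with
      | false => rw [tw_c1, tw_c1]; rfl
      | true =>
        rw [tw_c2, tw_c2, fwd_inc, fwd_inc]
        exact congrArg Sum.inl (Quot.sound (Corner.ne c))
  | nw d =>
    rcases d with d | i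
    · by_cases hd : d = c
      · subst hd; rw [tw_c]; rfl
      · rw [tw_old _ _ _ _ hd, fwd_inc]
        exact congrArg Sum.inl (Quot.sound (Corner.nw d))
    · cases i with
      | false => rw [tw_c1]; rfl
      | true =>
        rw [tw_c2, fwd_inc]
        exact congrArg Sum.inl (Quot.sound (Corner.nw c))
  | sw d =>
    rcases d with d | i
    · exact congrArg Sum.inl (Quot.sound (Corner.sw d))
    · rfl
  | se d =>
    rcases d with d | i
    · by_cases hd : d = c
      · subst hd; rw [tw_c]; rfl
      · rw [tw_old _ _ _ _ hd, fwd_inc]
        exact congrArg Sum.inl (Quot.sound (Corner.se d))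
    · cases i with
      | false => rw [tw_c1]; rfl
      | true =>
        rw [tw_c2, fwd_inc]
        exact congrArg Sum.inl (Quot.sound (Corner.se c))

theorem bwd_sound {C : Type} (next : C × Bool → C × Bool) (c : C)
    (x y : (C × Bool) × Bool) (h : Corner next x y) :
    (Quot.mk (Corner (twNext next c)) (inc x.1, x.2)) = Quot.mk _ (inc y.1, y.2) := by
  cases h with
  | ne d =>
    by_cases hd : d = c
    · subst hd
      have := Corner.ne (next := twNext next d) (Sum.inr true)
      rw [tw_c2, tw_c2] at this
      exact Quot.sound this
    · have := Corner.ne (next := twNext next c) (Sum.inl d)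
      rw [tw_old _ _ _ _ hd, tw_old _ _ _ _ hd] at this
      exact Quot.sound this
  | nw d =>
    by_cases hd : d = c
    · subst hd
      have h1 := Corner.nw (next := twNext next d) (Sum.inr true)
      have h2 := Corner.nw (next := twNext next d) (Sum.inr false)
      have h3 := Corner.nw (next := twNext next d) (Sum.inl d)
      rw [tw_c2] at h1
      rw [tw_c1] at h2
      rw [tw_c] at h3
      exact (Quot.sound h1).trans ((Quot.sound h2).trans (Quot.sound h3))
    · have := Corner.nw (next := twNext next c) (Sum.inl d)
      rw [tw_old _ _ _ _ hd] at this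
      exact Quot.sound this
  | sw d =>
    exact Quot.sound (Corner.sw (next := twNext next c) (Sum.inl d))
  | se d =>
    by_cases hd : d = c
    · subst hd
      have h1 := Corner.se (next := twNext next d) (Sum.inl d)
      have h2 := Corner.se (next := twNext next d) (Sum.inr false)
      have h3 := Corner.se (next := twNext next d) (Sum.inr true)
      rw [tw_c] at h1
      rw [tw_c1] at h2
      rw [tw_c2] at h3
      exact (Quot.sound h1).trans ((Quot.sound h2).trans (Quot.sound h3))
    · have := Corner.se (next := twNext next c) (Sum.inl d)
      rw [tw_old _ _ _ _ hd] at this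
      exact Quot.sound this

/-- The regions of the twisted shadow: the old regions and two bigons. -/
def regionEquiv {C : Type} (next : C × Bool → C × Bool) (c : C) :
    Region (twNext next c) ≃ Region next ⊕ Bool where
  toFun := Quot.lift (fwd next c) (fwd_sound next c)
  invFun := fun r => match r with
    | Sum.inl q => Quot.lift (fun x : (C × Bool) × Bool =>
        (Quot.mk (Corner (twNext next c)) (inc x.1, x.2))) (bwd_sound next c) q
    | Sum.inr i => Quot.mk _ ((Sum.inr i, true), false)
  left_inv := by
    intro q
    induction q using Quot.ind with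
    | mk x =>
      obtain ⟨⟨d, b⟩, s⟩ := x
      rcases d with d | i
      · rfl
      · have hL1 : Quot.mk (Corner (twNext next c)) ((Sum.inr false, true), true) =
            Quot.mk _ ((Sum.inl c, true), true) := by
          have h3 := Corner.nw (next := twNext next c) (Sum.inl c)
          rw [tw_c] at h3
          exact Quot.sound h3
        have hL2 : Quot.mk (Corner (twNext next c)) ((Sum.inr true, true), true) =
            Quot.mk _ ((Sum.inr false, true), true) := by
          have h3 := Corner.nw (next := twNext next c) (Sum.inr false)
          rw [tw_c1] at h3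
          exact Quot.sound h3
        have hR1 : Quot.mk (Corner (twNext next c)) ((Sum.inl c, false), false) =
            Quot.mk _ ((Sum.inr false, false), false) := by
          have h3 := Corner.se (next := twNext next c) (Sum.inl c)
          rw [tw_c] at h3
          exact Quot.sound h3
        have hR2 : Quot.mk (Corner (twNext next c)) ((Sum.inr false, false), false) =
            Quot.mk _ ((Sum.inr true, false), false) := by
          have h3 := Corner.se (next := twNext next c) (Sum.inr false)
          rw [tw_c1] at h3
          exact Quot.sound h3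
        cases b <;> cases s <;> cases i
        · exact hR1
        · exact hR1.trans hR2
        · exact Quot.sound (Corner.sw (next := twNext next c) (Sum.inr false))
        · exact Quot.sound (Corner.sw (next := twNext next c) (Sum.inr true))
        · rfl
        · rfl
        · exact hL1.symm
        · exact (hL2.trans hL1).symm
  right_inv := by
    rintro (q | i)
    · induction q using Quot.ind with
      | mk x => rfl
    · rfl

instance {C : Type} [Finite C] (next : C × Bool → C × Bool) : Finite (Region next) := by
  unfold Region; infer_instance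

theorem tw_valid {C : Type} (next : C × Bool → C × Bool) (c : C) (h : Valid next) :
    Valid (twNext next c) where
  finC := by have := h.finC; infer_instance
  nonempty := ⟨Sum.inr true⟩
  one_component := tw_one next c h.one_component
  planar := by
    have := h.finC
    rw [Nat.card_congr (regionEquiv next c), Nat.card_sum, Nat.card_sum, h.planar]
    simp

/-! ### The transfer permutation -/

section Count

variable {X : Type} (op : X → X → X)

/-- Transfer of a positive crossing: (left, right) incoming to (left, right) outgoing. -/
noncomputable def sig (hX : IsQuandle op) : Equiv.Perm (X × X) :=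
  Equiv.ofBijective (fun p => (op p.2 p.1, p.1)) (by
    constructor
    · rintro ⟨a, b⟩ ⟨a', b'⟩ h
      simp only [Prod.mk.injEq] at h
      obtain ⟨h1, h2⟩ := h
      subst h2
      have := (hX.bij a).1 h1
      simp [this]
    · rintro ⟨u, w⟩
      obtain ⟨b, hb⟩ := (hX.bij w).2 u
      exact ⟨(w, b), by simpa using hb⟩)

theorem sig_apply (hX : IsQuandle op) (a b : X) : sig op hX (a, b) = (op b a, a) := rfl

/-- colourings in which the crossing `c` acts as the power `e c` of the positive crossing -/
def IsGen {C : Type} (τ : Equiv.Perm (X × X)) (next : C × Bool → C × Bool) (e : C → ℤ)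
    (f : C × Bool → X) : Prop :=
  ∀ c, (τ ^ (e c)) (f (c, true), f (c, false)) = (f (next (c, false)), f (next (c, true)))

noncomputable def gcount {C : Type} (τ : Equiv.Perm (X × X)) (next : C × Bool → C × Bool)
    (e : C → ℤ) : ℕ :=
  Nat.card {f : C × Bool → X // IsGen τ next e f}

def pm (b : Bool) : ℤ := if b then 1 else -1

theorem sig_pm (hX : IsQuandle op) (s : Bool) (a b u w : X) :
    (sig op hX ^ (pm s)) (a, b) = (u, w) ↔
      (s = true → w = a ∧ u = op b a) ∧ (s = false → u = b ∧ a = op w b) := by
  cases s with
  | true =>
    have h1 : pm true = 1 := rfl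
    rw [h1, zpow_one, sig_apply, Prod.mk.injEq]
    constructor
    · rintro ⟨h1, h2⟩
      exact ⟨fun _ => ⟨h2.symm, h1.symm⟩, fun h => by simp at h⟩
    · rintro ⟨h, -⟩
      obtain ⟨h1, h2⟩ := h rfl
      exact ⟨h2.symm, h1.symm⟩
  | false =>
    have h1 : pm false = -1 := rfl
    rw [h1, zpow_neg, zpow_one, Equiv.Perm.inv_eq_iff_eq, sig_apply, Prod.mk.injEq]
    constructor
    · rintro ⟨h1, h2⟩
      refine ⟨fun h => by simp at h, fun _ => ⟨h2.symm, ?_⟩⟩
      rw [h1, ← h2]
    · rintro ⟨-, h⟩
      obtain ⟨h1, h2⟩ := h rfl
      rw [h1]
      exact ⟨h2, rfl⟩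

theorem isColoring_iff (hX : IsQuandle op) (D : KnotDiagram) (f : D.C × Bool → X) :
    IsColoring op D f ↔ IsGen (sig op hX) D.next (fun c => pm (D.sign c)) f := by
  unfold IsColoring IsGen
  refine forall_congr' fun c => ?_
  exact (sig_pm op hX (D.sign c) _ _ _ _).symm

theorem coloringCount_eq (hX : IsQuandle op) (D : KnotDiagram) :
    coloringCount op D = gcount (sig op hX) D.next (fun c => pm (D.sign c)) := by
  unfold coloringCount gcount
  exact Nat.card_congr (Equiv.subtypeEquivRight (isColoring_iff op hX D))

def sel (p : X × X) (b : Bool) : X := if b then p.1 else p.2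

/-- exponents on the old shadow obtained from exponents on the twisted one -/
noncomputable def push {C : Type} (c : C) (e : C ⊕ Bool → ℤ) : C → ℤ := fun d =>
  if d = c then e (Sum.inl c) + e (Sum.inr false) + e (Sum.inr true) else e (Sum.inl d)

variable {C : Type}

theorem gen_push (τ : Equiv.Perm (X × X)) (next : C × Bool → C × Bool) (c : C) (e : C ⊕ Bool → ℤ)
    (f : (C ⊕ Bool) × Bool → X) (h : IsGen τ (twNext next c) e f) :
    IsGen τ next (push c e) (fun x => f (inc x)) := by
  intro d
  by_cases hd : d = c
  · subst hd
    have h0 := h (Sum.inl d)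
    have h1 := h (Sum.inr false)
    have h2 := h (Sum.inr true)
    rw [tw_c, tw_c] at h0
    rw [tw_c1, tw_c1] at h1
    rw [tw_c2, tw_c2] at h2
    simp only [Bool.not_true, Bool.not_false] at h0 h1 h2
    change (τ ^ (push d e d)) (f (Sum.inl d, true), f (Sum.inl d, false)) =
      (f (inc (next (d, false))), f (inc (next (d, true))))
    rw [← h2, ← h1, ← h0, ← Equiv.Perm.mul_apply, ← Equiv.Perm.mul_apply, ← zpow_add, ← zpow_add]
    congr 2
    simp only [push, if_true]
    ring
  · have h0 := h (Sum.inl d)
    rw [tw_old _ _ _ _ hd, tw_old _ _ _ _ hd] at h0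
    simpa [push, hd, inc] using h0

/-- extension of a colouring to the twisted shadow -/
noncomputable def ext (τ : Equiv.Perm (X × X)) (c : C) (e : C ⊕ Bool → ℤ)
    (f : C × Bool → X) : (C ⊕ Bool) × Bool → X
  | (Sum.inl d, b) => f (d, b)
  | (Sum.inr false, b) => sel ((τ ^ (e (Sum.inl c))) (f (c, true), f (c, false))) b
  | (Sum.inr true, b) =>
      sel ((τ ^ (e (Sum.inr false) + e (Sum.inl c))) (f (c, true), f (c, false))) b

theorem gen_ext (τ : Equiv.Perm (X × X)) (next : C × Bool → C × Bool) (c : C) (e : C ⊕ Bool → ℤ)
    (f : C × Bool → X) (h : IsGen τ next (push c e) f) :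
    IsGen τ (twNext next c) e (ext τ c e f) := by
  rintro (d | i)
  · by_cases hd : d = c
    · subst hd
      rw [tw_c, tw_c]
      simp [ext, sel]
    · rw [tw_old _ _ _ _ hd, tw_old _ _ _ _ hd]
      have := h d
      simpa [push, hd, ext, inc] using this
  · cases i with
    | false =>
      change (τ ^ (e (Sum.inr false))) (sel ((τ ^ (e (Sum.inl c))) (f (c, true), f (c, false))) true,
        sel ((τ ^ (e (Sum.inl c))) (f (c, true), f (c, false))) false) =
        (sel ((τ ^ (e (Sum.inr false) + e (Sum.inl c))) (f (c, true), f (c, false))) true,
        sel ((τ ^ (e (Sum.inr false) + e (Sum.inl c))) (f (c, true), f (c, false))) false)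
      rw [zpow_add, Equiv.Perm.mul_apply]
      simp [sel]
    | true =>
      change (τ ^ (e (Sum.inr true)))
        (sel ((τ ^ (e (Sum.inr false) + e (Sum.inl c))) (f (c, true), f (c, false))) true,
        sel ((τ ^ (e (Sum.inr false) + e (Sum.inl c))) (f (c, true), f (c, false))) false) =
        (f (next (c, false)), f (next (c, true)))
      have := h c
      rw [← this]
      simp only [sel, if_true, Bool.false_eq_true, if_false, Prod.mk.eta]
      rw [← Equiv.Perm.mul_apply, ← zpow_add]
      congr 2
      simp only [push, if_true]
      ring

theorem gcount_tw (τ : Equiv.Perm (X × X)) (next : C × Bool → C × Bool) (c : C)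
    (e : C ⊕ Bool → ℤ) :
    gcount τ (twNext next c) e = gcount τ next (push c e) := by
  unfold gcount
  refine Nat.card_congr
    { toFun := fun f => ⟨fun x => f.1 (inc x), gen_push τ next c e f.1 f.2⟩
      invFun := fun f => ⟨ext τ c e f.1, gen_ext τ next c e f.1 f.2⟩
      left_inv := ?_
      right_inv := ?_ }
  · rintro ⟨f, hf⟩
    apply Subtype.ext
    funext ⟨d, b⟩
    have h0 := hf (Sum.inl c)
    have h1 := hf (Sum.inr false)
    rw [tw_c, tw_c] at h0
    rw [tw_c1, tw_c1] at h1
    simp only [Bool.not_true, Bool.not_false] at h0 h1
    rcases d with d | i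
    · rfl
    · cases i with
      | false =>
        change sel ((τ ^ (e (Sum.inl c))) (f (Sum.inl c, true), f (Sum.inl c, false))) b = _
        rw [h0]
        cases b <;> rfl
      | true =>
        change sel ((τ ^ (e (Sum.inr false) + e (Sum.inl c)))
          (f (Sum.inl c, true), f (Sum.inl c, false))) b = _
        rw [zpow_add, Equiv.Perm.mul_apply, h0, h1]
        cases b <;> rfl
  · rintro ⟨f, hf⟩
    apply Subtype.ext
    funext ⟨d, b⟩
    rfl

/-! ### Finite type implies polynomial behaviour on twist sequences -/

noncomputable def L (τ : Equiv.Perm (X × X)) (next : C × Bool → C × Bool) (c : C) (s : C → Bool)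
    (k : ℤ) : ℝ :=
  Real.log (gcount τ next (fun d => if d = c then 2 * k + 1 else pm (s d)))

theorem L_tw (τ : Equiv.Perm (X × X)) (next : C × Bool → C × Bool) (c : C)
    (s : C ⊕ Bool → Bool) (k j : ℤ)
    (h : pm (s (Sum.inr false)) + pm (s (Sum.inr true)) = 2 * j) :
    L τ (twNext next c) (Sum.inl c) s k = L τ next c (fun d => s (Sum.inl d)) (k + j) := by
  unfold L
  rw [gcount_tw]
  congr 3
  funext d
  unfold push
  by_cases hd : d = c
  · subst hd
    simp only [if_true, reduceCtorEq, if_false]
    linear_combination h
  · simp [hd]

noncomputable def res (s : C → Bool) (A T : Finset C) : C → Bool :=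
  fun d => if d ∈ A then decide (d ∉ T) else s d

noncomputable def G (τ : Equiv.Perm (X × X)) (next : C × Bool → C × Bool) (c : C) (s : C → Bool)
    (A : Finset C) (k : ℤ) : ℝ :=
  ∑ T ∈ A.powerset, (-1 : ℝ) ^ T.card * L τ next c (res s A T) k

theorem L_congr (τ : Equiv.Perm (X × X)) (next : C × Bool → C × Bool) (c : C) (s s' : C → Bool)
    (k : ℤ) (h : ∀ d, d ≠ c → s d = s' d) : L τ next c s k = L τ next c s' k := by
  unfold L
  congr 3
  funext d
  by_cases hd : d = c
  · simp [hd]
  · simp [hd, h d hd]

theorem sum_powerset_inl (A : Finset C) (f : Finset (C ⊕ Bool) → ℝ) :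
    ∑ T ∈ (A.image (Sum.inl : C → C ⊕ Bool)).powerset, f T =
      ∑ T ∈ A.powerset, f (T.image Sum.inl) := by
  rw [Finset.powerset_image, Finset.sum_image]
  intro T _ T' _ h
  exact Finset.image_injective Sum.inl_injective h

def sext (s : C → Bool) (x y : Bool) : C ⊕ Bool → Bool
  | Sum.inl d => s d
  | Sum.inr false => x
  | Sum.inr true => y

theorem G_tw (τ : Equiv.Perm (X × X)) (next : C × Bool → C × Bool) (c : C) (s : C → Bool)
    (A : Finset C) (x y : Bool) (k j : ℤ) (h : pm x + pm y = 2 * j) :
    G τ (twNext next c) (Sum.inl c) (sext s x y) (A.image Sum.inl) k =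
      G τ next c s A (k + j) := by
  unfold G
  rw [sum_powerset_inl]
  refine Finset.sum_congr rfl fun T hT => ?_
  rw [Finset.card_image_of_injective _ Sum.inl_injective]
  congr 1
  rw [L_tw (j := j)]
  · apply L_congr
    intro d _
    simp [res, sext]
  · simpa [res, sext] using h

theorem G_tw_insert (τ : Equiv.Perm (X × X)) (next : C × Bool → C × Bool) (c : C) (s : C → Bool)
    (A : Finset C) (k : ℤ) :
    G τ (twNext next c) (Sum.inl c) (sext s true true)
      (insert (Sum.inr false) (A.image Sum.inl)) k =
      G τ next c s A (k + 1) - G τ next c s A k := by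
  unfold G
  have hn : (Sum.inr false : C ⊕ Bool) ∉ A.image Sum.inl := by simp
  rw [Finset.sum_powerset_insert hn, sum_powerset_inl, sum_powerset_inl]
  rw [sub_eq_add_neg, ← Finset.sum_neg_distrib]
  congr 1
  · refine Finset.sum_congr rfl fun T hT => ?_
    rw [Finset.card_image_of_injective _ Sum.inl_injective]
    congr 1
    rw [L_tw (j := 1)]
    · apply L_congr
      intro d _
      simp [res, sext]
    · simp [res, sext, pm]
  · refine Finset.sum_congr rfl fun T hT => ?_
    rw [Finset.card_insert_of_notMem (by simp), Finset.card_image_of_injective _ Sum.inl_injective]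
    rw [pow_succ]
    have : L τ (twNext next c) (Sum.inl c) (res (sext s true true)
        (insert (Sum.inr false) (A.image Sum.inl)) (insert (Sum.inr false) (T.image Sum.inl))) k =
        L τ next c (res s A T) k := by
      rw [L_tw (j := 0)]
      · rw [add_zero]
        apply L_congr
        intro d _
        simp [res, sext]
      · simp [res, sext, pm]
    rw [this]
    ring

def FT (τ : Equiv.Perm (X × X)) (n : ℕ) : Prop :=
  ∀ (C : Type) (next : C × Bool → C × Bool) (_ : Valid next) (s : C → Bool) (A : Finset C),
    A.card = n + 1 → ∑ T ∈ A.powerset,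
      (-1 : ℝ) ^ T.card * Real.log (gcount τ next (fun d => pm (res s A T d))) = 0

theorem G_zero (τ : Equiv.Perm (X × X)) (n : ℕ) (h : FT τ n) (next : C × Bool → C × Bool)
    (hv : Valid next) (c : C)
    (s : C → Bool) (A : Finset C) (hc : c ∉ A) (hA : A.card = n + 1) (k : ℤ)
    (b : Bool) (hk : 2 * k + 1 = pm b) : G τ next c s A k = 0 := by
  rw [← h C next hv (Function.update s c b) A hA]
  unfold G
  refine Finset.sum_congr rfl fun T hT => ?_
  congr 1
  unfold L
  congr 3
  funext d
  by_cases hd : d = c
  · subst hd
    simp [res, hc, hk]
  · simp [res, hd]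

theorem G_nonneg (τ : Equiv.Perm (X × X)) (n : ℕ) (h : FT τ n) (k : ℕ) :
    ∀ (C : Type) (next : C × Bool → C × Bool) (_ : Valid next) (c : C) (s : C → Bool)
      (A : Finset C), c ∉ A → A.card = n + 1 → G τ next c s A k = 0 := by
  induction k with
  | zero =>
    intro C next hv c s A hc hA
    exact G_zero τ n h next hv c s A hc hA _ true (by simp [pm])
  | succ k ih =>
    intro C next hv c s A hc hA
    have := G_tw τ next c s A true true (k : ℤ) 1 (by simp [pm])
    rw [Nat.cast_succ, ← this]
    apply ih _ _ (tw_valid next c hv)
    · simpa using hc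
    · rw [Finset.card_image_of_injective _ Sum.inl_injective, hA]

theorem G_neg (τ : Equiv.Perm (X × X)) (n : ℕ) (h : FT τ n) (k : ℕ) :
    ∀ (C : Type) (next : C × Bool → C × Bool) (_ : Valid next) (c : C) (s : C → Bool)
      (A : Finset C), c ∉ A → A.card = n + 1 → G τ next c s A (-1 - k) = 0 := by
  induction k with
  | zero =>
    intro C next hv c s A hc hA
    exact G_zero τ n h next hv c s A hc hA _ false (by simp [pm])
  | succ k ih =>
    intro C next hv c s A hc hA
    have := G_tw τ next c s A false false (-1 - k : ℤ) (-1) (by simp [pm])
    rw [show (-1 - ((k + 1 : ℕ) : ℤ)) = -1 - (k : ℤ) + -1 by push_cast; ring, ← this]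
    apply ih _ _ (tw_valid next c hv)
    · simpa using hc
    · rw [Finset.card_image_of_injective _ Sum.inl_injective, hA]

theorem G_all (τ : Equiv.Perm (X × X)) (n : ℕ) (h : FT τ n) (k : ℤ)
    (next : C × Bool → C × Bool) (hv : Valid next) (c : C) (s : C → Bool) (A : Finset C)
    (hc : c ∉ A) (hA : A.card = n + 1) : G τ next c s A k = 0 := by
  rcases le_or_gt 0 k with hk | hk
  · obtain ⟨m, rfl⟩ := Int.eq_ofNat_of_zero_le hk
    exact G_nonneg τ n h m C next hv c s A hc hA
  · obtain ⟨m, hm⟩ := Int.eq_ofNat_of_zero_le (show 0 ≤ -1 - k by omega)
    have : k = -1 - (m : ℤ) := by omega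
    rw [this]
    exact G_neg τ n h m C next hv c s A hc hA

/-- difference operator -/
def dl (F : ℤ → ℝ) : ℤ → ℝ := fun k => F (k + 1) - F k

theorem dl_G (τ : Equiv.Perm (X × X)) (n : ℕ) (h : FT τ n) (m : ℕ) :
    ∀ (C : Type) (next : C × Bool → C × Bool) (_ : Valid next) (c : C) (s : C → Bool)
      (A : Finset C), c ∉ A → A.card + m = n + 1 → dl^[m] (G τ next c s A) = 0 := by
  induction m with
  | zero =>
    intro C next hv c s A hc hA
    funext k
    exact G_all τ n h k next hv c s A hc hA
  | succ m ih =>
    intro C next hv c s A hc hA
    rw [Function.iterate_succ_apply]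
    have h1 := ih _ (twNext next c) (tw_valid next c hv) (Sum.inl c) (sext s true true)
      (insert (Sum.inr false) (A.image Sum.inl)) (by simpa using hc) (by
        rw [Finset.card_insert_of_notMem (by simp),
          Finset.card_image_of_injective _ Sum.inl_injective]
        omega)
    rw [← h1]
    congr 1
    funext k
    exact (G_tw_insert τ next c s A k).symm

theorem periodic_dl (F : ℤ → ℝ) (p : ℤ) (h : ∀ k, F (k + p) = F k) :
    ∀ k, dl F (k + p) = dl F k := by
  intro k
  unfold dl
  rw [show k + p + 1 = (k + 1) + p by ring, h, h]

theorem periodic_dl_iter (F : ℤ → ℝ) (p : ℤ) (h : ∀ k, F (k + p) = F k) (m : ℕ) :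
    ∀ k, dl^[m] F (k + p) = dl^[m] F k := by
  induction m with
  | zero => exact h
  | succ m ih =>
    rw [Function.iterate_succ']
    exact periodic_dl _ _ ih

theorem dl_zero_of_dl_dl_zero (F : ℤ → ℝ) (p : ℕ) (hp : 0 < p) (h : ∀ k, F (k + p) = F k)
    (h2 : dl (dl F) = 0) : dl F = 0 := by
  have hc : ∀ k : ℕ, dl F k = dl F 0 := by
    intro k
    induction k with
    | zero => rfl
    | succ k ih =>
      have := congrFun h2 k
      simp only [dl, Pi.zero_apply, zero_add] at this ih ⊢
      push_cast
      linarith
  have hcn : ∀ k : ℕ, dl F (-(k : ℤ)) = dl F 0 := by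
    intro k
    induction k with
    | zero => simp
    | succ k ih =>
      have := congrFun h2 (-((k + 1 : ℕ) : ℤ))
      simp only [dl, Pi.zero_apply, zero_add] at this ih ⊢
      rw [show (-((k + 1 : ℕ) : ℤ)) + 1 = -(k : ℤ) by push_cast; ring] at this ⊢
      linarith
  have hs : ∀ k : ℕ, F k = F 0 + k * dl F 0 := by
    intro k
    induction k with
    | zero => simp
    | succ k ih =>
      have := hc k
      simp only [dl, zero_add] at this ih ⊢
      push_cast
      linarith
  have h0 : dl F 0 = 0 := by
    have h1 := hs p
    have h3 := h 0
    rw [zero_add] at h3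
    rw [h3] at h1
    have hp' : (p : ℝ) ≠ 0 := by positivity
    have : (p : ℝ) * dl F 0 = 0 := by linarith
    exact (mul_eq_zero.1 this).resolve_left hp'
  funext k
  rcases le_or_gt 0 k with hk | hk
  · obtain ⟨m, rfl⟩ := Int.eq_ofNat_of_zero_le hk
    rw [hc m, h0]; rfl
  · obtain ⟨m, hm⟩ := Int.eq_ofNat_of_zero_le (show 0 ≤ -k by omega)
    have : k = -(m : ℤ) := by omega
    rw [this, hcn m, h0]; rfl

theorem dl_eq_zero (F : ℤ → ℝ) (p : ℕ) (hp : 0 < p) (h : ∀ k, F (k + p) = F k) (m : ℕ)
    (h2 : dl^[m + 1] F = 0) : dl F = 0 := by
  induction m with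
  | zero => exact h2
  | succ m ih =>
    apply ih
    rw [Function.iterate_succ_apply']
    apply dl_zero_of_dl_dl_zero _ p hp
    · exact periodic_dl_iter F p h m
    · rw [Function.iterate_succ_apply', Function.iterate_succ_apply'] at h2
      exact h2

theorem L_periodic (τ : Equiv.Perm (X × X)) (p : ℕ) (hp : τ ^ p = 1)
    (next : C × Bool → C × Bool) (c : C)
    (s : C → Bool) (k : ℤ) : L τ next c s (k + p) = L τ next c s k := by
  unfold L
  congr 2
  unfold gcount
  refine Nat.card_congr (Equiv.subtypeEquivRight fun f => ?_)
  unfold IsGen
  refine forall_congr' fun d => ?_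
  by_cases hd : d = c
  · simp only [hd, if_true]
    have : τ ^ (2 * (k + (p : ℤ)) + 1) = τ ^ (2 * k + 1) := by
      rw [show (2 * (k + (p : ℤ)) + 1) = (2 * k + 1) + (p : ℤ) * 2 by ring, zpow_add, zpow_mul,
        zpow_natCast, hp]
      simp
    rw [this]
  · simp only [hd, if_false]

theorem L_const [Finite X] (τ : Equiv.Perm (X × X)) (n : ℕ) (h : FT τ n)
    (next : C × Bool → C × Bool) (hv : Valid next) (c : C)
    (s : C → Bool) : L τ next c s 0 = L τ next c s (-1) := by
  have h1 := dl_G τ n h (n + 1) C next hv c s ∅ (by simp) (by simp)
  have h2 : G τ next c s ∅ = L τ next c s := by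
    funext k
    unfold G
    simp only [Finset.powerset_empty, Finset.sum_singleton, Finset.card_empty, pow_zero, one_mul]
    exact L_congr τ next c _ _ k (fun d _ => by simp [res])
  rw [h2] at h1
  have h3 := dl_eq_zero _ (orderOf τ) (orderOf_pos τ)
    (fun k => L_periodic τ (orderOf τ) (pow_orderOf_eq_one τ) next c s k) n h1
  have h4 := congrFun h3 (-1)
  simp only [dl, Pi.zero_apply] at h4
  norm_num at h4
  linarith

theorem ft_of_vassiliev (hX : IsQuandle op)
    (hV : IsVassiliev (fun D => Real.log (coloringCount op D))) :
    ∃ n, FT (sig op hX) n := by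
  obtain ⟨n, hn⟩ := hV
  refine ⟨n, fun C next hv s A hA => ?_⟩
  have h := hn (mkD next hv s) A hA
  unfold singularValue at h
  rw [← h]
  refine Finset.sum_congr rfl fun T _ => ?_
  congr 2
  rw [coloringCount_eq op hX]
  rfl

theorem change_one [Finite X] (τ : Equiv.Perm (X × X)) (n : ℕ) (h : FT τ n)
    (next : C × Bool → C × Bool) (hv : Valid next) (c : C) (s : C → Bool) (b : Bool) :
    Real.log (gcount τ next (fun d => pm (Function.update s c b d))) =
      Real.log (gcount τ next (fun d => pm (s d))) := by
  have h0 := L_const τ n h next hv c s
  have key : ∀ x : Bool, Real.log (gcount τ next (fun d => pm (Function.update s c x d))) =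
      L τ next c s 0 := by
    intro x
    cases x with
    | true =>
      unfold L
      congr 3
      funext d
      by_cases hd : d = c
      · subst hd; simp [pm]
      · simp [hd]
    | false =>
      rw [h0]
      unfold L
      congr 3
      funext d
      by_cases hd : d = c
      · subst hd; simp [pm]
      · simp [hd]
  rw [key b, ← key (s c), Function.update_eq_self]

theorem change_many [Finite X] (τ : Equiv.Perm (X × X)) (n : ℕ) (h : FT τ n)
    (next : C × Bool → C × Bool) (hv : Valid next) (s s' : C → Bool) :
    Real.log (gcount τ next (fun d => pm (s d))) =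
      Real.log (gcount τ next (fun d => pm (s' d))) := by
  have := hv.finC
  have := Fintype.ofFinite C
  have key : ∀ B : Finset C, Real.log (gcount τ next (fun d => pm (if d ∈ B then s' d else s d))) =
      Real.log (gcount τ next (fun d => pm (s d))) := by
    intro B
    induction B using Finset.induction_on with
    | empty => simp
    | insert c B hc ih =>
      rw [← ih, ← change_one τ n h next hv c (fun d => if d ∈ B then s' d else s d) (s' c)]
      congr 3
      funext d
      by_cases hd : d = c
      · subst hd; simp
      · simp [hd]
  rw [← key Finset.univ]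
  simp

/-! ### Descending diagrams -/

theorem descending_count (hX : IsQuandle op) (next : C × Bool → C × Bool) (hv : Valid next) :
    ∃ s : C → Bool, gcount (sig op hX) next (fun d => pm (s d)) = Nat.card X := by
  obtain ⟨c0⟩ := hv.nonempty
  let x0 : C × Bool := (c0, true)
  let idx : C × Bool → ℕ := fun x => Nat.find (hv.one_component x0 x)
  have hidx : ∀ x, next^[idx x] x0 = x := fun x => Nat.find_spec (hv.one_component x0 x)
  have hmin : ∀ k, idx (next^[k] x0) ≤ k := fun k =>
    Nat.find_min' (hv.one_component x0 (next^[k] x0)) rfl
  have hne : ∀ c, idx (c, true) ≠ idx (c, false) := by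
    intro c h
    have h1 := hidx (c, true)
    rw [h, hidx (c, false)] at h1
    simp at h1
  let s : C → Bool := fun c => decide (idx (c, true) < idx (c, false))
  refine ⟨s, ?_⟩
  have hconst : ∀ f : C × Bool → X, IsGen (sig op hX) next (fun d => pm (s d)) f →
      ∀ k, ∀ j ≤ k, f (next^[j] x0) = f x0 := by
    intro f hf k
    induction k with
    | zero =>
      intro j hj
      have : j = 0 := by omega
      subst this; rfl
    | succ k ih =>
      intro j hj
      rcases Nat.lt_or_ge k j with hkj | hkj
      · have hjk : j = k + 1 := by omega
        subst hjk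
        rw [Function.iterate_succ_apply']
        have hk := ih k le_rfl
        have hm := hmin k
        set y := next^[k] x0 with hy
        have hfy := (sig_pm op hX (s y.1) _ _ _ _).1 (hf y.1)
        have low : ∀ z : C × Bool, idx z < idx y → f z = f x0 := by
          intro z hz
          have := ih (idx z) (by omega)
          rwa [hidx z] at this
        obtain ⟨d, b⟩ := y
        simp only at hfy
        rcases Nat.lt_or_ge (idx (d, true)) (idx (d, false)) with hlt | hge
        · have hs : s d = true := by simp [s, hlt]
          obtain ⟨h1, h2⟩ := hfy.1 hs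
          cases b with
          | true => rw [h1, hk]
          | false => rw [h2, hk, low (d, true) hlt, hX.idem]
        · have hlt : idx (d, false) < idx (d, true) := lt_of_le_of_ne hge (hne d).symm
          have hs : s d = false := by simp [s]; omega
          obtain ⟨h1, h2⟩ := hfy.2 hs
          cases b with
          | false => rw [h1, hk]
          | true =>
            have h3 := low (d, false) hlt
            rw [h3, hk] at h2
            apply (hX.bij (f x0)).1
            simp only
            rw [← h2, hX.idem]
      · exact ih j (by omega)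
  have hall : ∀ f : C × Bool → X, IsGen (sig op hX) next (fun d => pm (s d)) f →
      f = fun _ => f x0 := by
    intro f hf
    funext z
    have := hconst f hf (idx z) (idx z) le_rfl
    rwa [hidx z] at this
  have hcol : ∀ a : X, IsGen (sig op hX) next (fun d => pm (s d)) (fun _ => a) := by
    intro a c
    exact (sig_pm op hX (s c) _ _ _ _).2
      ⟨fun _ => ⟨rfl, (hX.idem a).symm⟩, fun _ => ⟨rfl, (hX.idem a).symm⟩⟩
  unfold gcount
  exact Nat.card_congr
    { toFun := fun f => f.1 x0
      invFun := fun a => ⟨fun _ => a, hcol a⟩
      left_inv := by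
        rintro ⟨f, hf⟩
        apply Subtype.ext
        exact (hall f hf).symm
      right_inv := fun a => rfl }

theorem valid_of_diagram (D : KnotDiagram) : Valid D.next :=
  ⟨D.finC, D.nonempty, D.one_component, D.planar⟩

theorem main [Finite X] (hX : IsQuandle op)
    (hV : IsVassiliev (fun D => Real.log (coloringCount op D))) (D : KnotDiagram) :
    Real.log (coloringCount op D) = Real.log (Nat.card X) := by
  obtain ⟨n, hn⟩ := ft_of_vassiliev op hX hV
  obtain ⟨s, hs⟩ := descending_count op hX D.next (valid_of_diagram D)
  rw [coloringCount_eq op hX, ← hs]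
  exact change_many _ n hn D.next (valid_of_diagram D) _ _

end Count

/-! ### Sanity check: the right-handed trefoil and the three-element dihedral quandle -/

section Example

/-- The trefoil as the closure of the third power of the positive crossing of two strands. -/
def trefNext : Fin 3 × Bool → Fin 3 × Bool := fun x => (x.1 + 1, !x.2)

def trefFwd : (Fin 3 × Bool) × Bool → Fin 3 ⊕ Bool
  | ((i, true), false) => Sum.inl i
  | ((i, false), true) => Sum.inl i
  | ((_, true), true) => Sum.inr true
  | ((_, false), false) => Sum.inr false

def trefRegions : Region trefNext ≃ Fin 3 ⊕ Bool where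
  toFun := Quot.lift trefFwd (by
    intro x y h
    cases h <;> rfl)
  invFun := fun r => match r with
    | Sum.inl i => Quot.mk _ ((i, true), false)
    | Sum.inr true => Quot.mk _ ((0, true), true)
    | Sum.inr false => Quot.mk _ ((0, false), false)
  left_inv := by
    intro q
    induction q using Quot.ind with
    | mk x =>
      obtain ⟨⟨i, b⟩, s⟩ := x
      have hL : ∀ i : Fin 3, Quot.mk (Corner trefNext) ((i + 1, true), true) =
          Quot.mk _ ((i, true), true) := fun i => Quot.sound (Corner.nw (next := trefNext) i)
      have hR : ∀ i : Fin 3, Quot.mk (Corner trefNext) ((i, false), false) =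
          Quot.mk _ ((i + 1, false), false) := fun i => Quot.sound (Corner.se (next := trefNext) i)
      have l1 := hL 0
      have l2 := hL 1
      have r1 := hR 0
      have r2 := hR 1
      cases b <;> cases s
      · fin_cases i
        · rfl
        · exact r1
        · exact r1.trans r2
      · exact Quot.sound (Corner.sw (next := trefNext) i)
      · rfl
      · fin_cases i
        · rfl
        · exact l1.symm
        · exact (l2.trans l1).symm
  right_inv := by
    rintro (i | b)
    · rfl
    · cases b <;> rfl

def trefoil : KnotDiagram where
  C := Fin 3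
  finC := inferInstance
  nonempty := ⟨0⟩
  next := trefNext
  one_component := by
    have h : ∀ x y : Fin 3 × Bool, ∃ k : Fin 6, trefNext^[k] x = y := by decide
    intro x y
    obtain ⟨k, hk⟩ := h x y
    exact ⟨k, hk⟩
  planar := by rw [Nat.card_congr trefRegions]; simp
  sign := fun _ => true

/-- The one-crossing diagram of the unknot. -/
def kinkNext : Fin 1 × Bool → Fin 1 × Bool := fun x => (x.1, !x.2)

def kinkRegions : Region kinkNext ≃ Fin 3 where
  toFun := Quot.lift (fun x => match x with
    | ((_, true), true) => 0
    | ((_, false), false) => 1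
    | _ => 2) (by
      intro x y h
      cases h <;> rfl)
  invFun := fun r => match r with
    | 0 => Quot.mk _ ((0, true), true)
    | 1 => Quot.mk _ ((0, false), false)
    | 2 => Quot.mk _ ((0, true), false)
  left_inv := by
    intro q
    induction q using Quot.ind with
    | mk x =>
      obtain ⟨⟨i, b⟩, s⟩ := x
      have : i = 0 := Subsingleton.elim _ _
      subst this
      cases b <;> cases s
      · rfl
      · exact Quot.sound (Corner.sw (next := kinkNext) 0)
      · rfl
      · rfl
  right_inv := by
    intro r
    fin_cases r <;> rfl

def kink : KnotDiagram where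
  C := Fin 1
  finC := inferInstance
  nonempty := ⟨0⟩
  next := kinkNext
  one_component := by
    have h : ∀ x y : Fin 1 × Bool, ∃ k : Fin 2, kinkNext^[k] x = y := by decide
    intro x y
    obtain ⟨k, hk⟩ := h x y
    exact ⟨k, hk⟩
  planar := by rw [Nat.card_congr kinkRegions]; simp
  sign := fun _ => true

/-- The dihedral quandle of order three. -/
def dih (x y : ZMod 3) : ZMod 3 := 2 * y - x

theorem dih_quandle : IsQuandle dih where
  idem := by decide
  bij := by
    intro y
    rw [Fintype.bijective_iff_injective_and_card]
    refine ⟨?_, rfl⟩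
    revert y
    decide
  distrib := by decide

theorem trefoil_count : coloringCount dih trefoil = 9 := by
  have h : {f : Fin 3 × Bool → ZMod 3 // IsColoring dih trefoil f} ≃ ZMod 3 × ZMod 3 :=
    { toFun := fun f => (f.1 ((0 : Fin 3), true), f.1 ((0 : Fin 3), false))
      invFun := fun p => ⟨fun x => match x with
        | (0, true) => p.1
        | (0, false) => p.2
        | (1, true) => dih p.2 p.1
        | (1, false) => p.1
        | (2, true) => dih p.1 (dih p.2 p.1)
        | (2, false) => dih p.2 p.1, by
          obtain ⟨a, b⟩ := p
          have k1 : ∀ a b : ZMod 3, dih a (dih b a) = b := by decide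
          intro c
          change Fin 3 at c
          refine ⟨fun _ => ?_, fun h => by cases h⟩
          fin_cases c
          · exact ⟨rfl, rfl⟩
          · exact ⟨rfl, rfl⟩
          · refine ⟨(k1 a b).symm, ?_⟩
            change a = dih (dih b a) (dih a (dih b a))
            rw [k1]⟩
      left_inv := by
        rintro ⟨f, hf⟩
        apply Subtype.ext
        have h0 := (hf (0 : Fin 3)).1 rfl
        have h1 := (hf (1 : Fin 3)).1 rfl
        funext x
        obtain ⟨i, b⟩ := x
        have e1 : f ((1 : Fin 3), false) = f ((0 : Fin 3), true) := h0.1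
        have e2 : f ((1 : Fin 3), true) = dih (f ((0 : Fin 3), false)) (f ((0 : Fin 3), true)) := h0.2
        have e3 : f ((2 : Fin 3), false) = f ((1 : Fin 3), true) := h1.1
        have e4 : f ((2 : Fin 3), true) = dih (f ((1 : Fin 3), false)) (f ((1 : Fin 3), true)) := h1.2
        fin_cases i <;> cases b
        · rfl
        · rfl
        · exact e1.symm
        · exact e2.symm
        · exact (e3.trans e2).symm
        · exact (e4.trans (congrArg₂ dih e1 e2)).symm
      right_inv := fun p => rfl }
  unfold coloringCount
  exact (Nat.card_congr h).trans (by simp)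

theorem kink_count : coloringCount dih kink = 3 := by
  have h : {f : Fin 1 × Bool → ZMod 3 // IsColoring dih kink f} ≃ ZMod 3 :=
    { toFun := fun f => f.1 (0, true)
      invFun := fun a => ⟨fun _ => a, fun c =>
        ⟨fun _ => ⟨rfl, (dih_quandle.idem a).symm⟩, fun _ => ⟨rfl, (dih_quandle.idem a).symm⟩⟩⟩
      left_inv := by
        rintro ⟨f, hf⟩
        apply Subtype.ext
        have h0 : f ((0 : Fin 1), false) = f ((0 : Fin 1), true) := ((hf (0 : Fin 1)).1 rfl).1
        funext x
        obtain ⟨i, b⟩ := x
        have : i = 0 := Subsingleton.elim _ _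
        subst this
        cases b
        · exact h0.symm
        · rfl
      right_inv := fun p => rfl }
  unfold coloringCount
  exact (Nat.card_congr h).trans (by simp)

end Example

/-- For every finite quandle `X` (connected or not) the logarithm of the number of colourings is
either constant on all knots or not a Vassiliev invariant. -/
theorem result (X : Type) [Finite X] (op : X → X → X) (hX : IsQuandle op) :
    (∀ D D' : KnotDiagram, Real.log (coloringCount op D) = Real.log (coloringCount op D')) ∨
      ¬ IsVassiliev (fun D => Real.log (coloringCount op D)) := by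
  by_cases hV : IsVassiliev (fun D => Real.log (coloringCount op D))
  · left
    intro D D'
    rw [main op hX hV D, main op hX hV D']
  · right
    exact hV

end Pool.Agent.Results.MP_cc10d1_gt.LogColoringCount
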